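import Pool.Agent.Helper82.AH.Props

/-!
# MP_b55b7c_an: AH algebras, basic lemmas on homogeneous blocks
-/

open scoped ENNReal NNReal InnerProductSpace ComplexOrder
open Filter Topology

attribute [-instance] CStarMatrix.instAlgebra CStarMatrix.instModule CStarMatrix.instSMul
  CStarMatrix.instMulAction CStarMatrix.instDistribMulAction

noncomputable section
namespace RC
universe u

namespace HCor

variable {A : Type u} [CStarAlgebra A] (H : HCor A)

theorem cs : CompactSpace H.X := isCompact_iff_compactSpace.mp H.cpt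

theorem star_p : star H.p = H.p := by
  ext1 x
  exact (H.proj x).isSelfAdjoint

theorem p_p : H.p * H.p = H.p := by
  ext1 x
  exact (H.proj x).isIdempotentElem

theorem psi_one : H.ψ 1 = H.ψ H.p := by
  rw [← H.comp 1, mul_one, H.p_p]

theorem psi_p_mul (f : C(H.X, Mt H.N)) : H.ψ (H.p * f) = H.ψ f := by
  rw [← H.comp f, ← H.comp (H.p * f), ← mul_assoc, H.p_p]

theorem psi_mul_p (f : C(H.X, Mt H.N)) : H.ψ (f * H.p) = H.ψ f := by
  rw [← H.comp f, ← H.comp (f * H.p), ← mul_assoc H.p f H.p, mul_assoc (H.p * f) H.p H.p, H.p_p]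

theorem psi_mul (f g : C(H.X, Mt H.N)) (hf : H.p * f * H.p = f) : H.ψ (f * g) = H.ψ f * H.ψ g := by
  rw [H.mul, ← hf, mul_assoc (H.p * f) H.p H.p, H.p_p]

theorem psi_mul' (f g : C(H.X, Mt H.N)) (hg : H.p * g * H.p = g) :
    H.ψ (f * g) = H.ψ f * H.ψ g := by
  have h1 : H.p * g = g := by
    rw [← hg, ← mul_assoc, ← mul_assoc, H.p_p]
  rw [H.mul, mul_assoc, h1]

theorem one_mul_psi (f : C(H.X, Mt H.N)) : H.ψ 1 * H.ψ f = H.ψ f := by
  rw [H.mul, one_mul, H.psi_p_mul]

theorem psi_mul_one (f : C(H.X, Mt H.N)) : H.ψ f * H.ψ 1 = H.ψ f := by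
  rw [H.mul, mul_one, H.psi_mul_p]

theorem star_psi_one : star (H.ψ 1) = H.ψ 1 := by
  rw [H.psi_one, ← H.map_star', H.star_p]

theorem norm_psi_le [CompactSpace H.X] (f : C(H.X, Mt H.N)) : ‖H.ψ f‖ ≤ ‖f‖ :=
  H.norm_le f ‖f‖ (norm_nonneg f) fun x => f.norm_coe_le_norm x

theorem continuous_psi [CompactSpace H.X] : Continuous H.ψ :=
  AddMonoidHomClass.continuous_of_bound H.ψ 1 fun f => by
    rw [one_mul]
    exact H.norm_psi_le f

end HCor

section
variable {X : Type} [TopologicalSpace X] {N : ℕ}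

/-- The pointwise continuous functional calculus `x ↦ F (E x)`. -/
def cX (F : ℝ → ℝ) (hF : Continuous F) (E : C(X, Mt N)) (hE : ∀ x, IsSelfAdjoint (E x)) :
    C(X, Mt N) where
  toFun x := cfc F (E x)
  continuous_toFun := by
    rw [continuous_iff_continuousAt]
    intro x₀
    refine ContinuousAt.cfc (isCompact_closedBall (0 : ℝ) ((‖E x₀‖ + 1) * ‖(1 : Mt N)‖)) F
      E.continuous.continuousAt ?_ (Filter.Eventually.of_forall hE) hF.continuousOn
    have h1 : ∀ᶠ x in 𝓝 x₀, ‖E x‖ < ‖E x₀‖ + 1 :=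
      (E.continuous.norm.continuousAt).eventually_lt continuousAt_const (by linarith)
    filter_upwards [h1] with x hx t ht
    rw [mem_closedBall_zero_iff]
    have h2 : ‖(t : ℝ)‖ ≤ ‖E x‖ * ‖(1 : Mt N)‖ := spectrum.norm_le_norm_mul_of_mem ht
    exact h2.trans (mul_le_mul_of_nonneg_right hx.le (norm_nonneg _))

@[simp] theorem cX_apply (F : ℝ → ℝ) (hF : Continuous F) (E : C(X, Mt N))
    (hE : ∀ x, IsSelfAdjoint (E x)) (x : X) : cX F hF E hE x = cfc F (E x) := rfl

/-- A continuous function with nonnegative values is a square. -/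
theorem exists_sqrt (f : C(X, Mt N)) (hf : ∀ x, 0 ≤ f x) :
    ∃ c : C(X, Mt N), (∀ x, 0 ≤ c x) ∧ star c = c ∧ c * c = f := by
  refine ⟨cX Real.sqrt Real.continuous_sqrt f fun x => (hf x).isSelfAdjoint, ?_, ?_, ?_⟩
  · intro x
    rw [cX_apply]
    exact cfc_nonneg fun t _ => Real.sqrt_nonneg t
  · ext1 x
    exact (IsSelfAdjoint.cfc (f := Real.sqrt) (a := f x)).star_eq
  · ext1 x
    rw [ContinuousMap.mul_apply, cX_apply, ← cfc_mul Real.sqrt Real.sqrt (f x)
      (Real.continuous_sqrt.continuousOn) (Real.continuous_sqrt.continuousOn)]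
    have h1 : cfc (fun t : ℝ => √t * √t) (f x) = cfc (fun t : ℝ => t) (f x) := by
      apply cfc_congr
      intro t ht
      exact Real.mul_self_sqrt (spectrum_nonneg_of_nonneg (hf x) ht)
    rw [h1]
    exact cfc_id' ℝ (f x) (hf x).isSelfAdjoint

end

namespace HCor

variable {A : Type u} [CStarAlgebra A] [PartialOrder A] [StarOrderedRing A] (H : HCor A)

/-- `ψ` is positive. -/
theorem psi_nonneg (f : C(H.X, Mt H.N)) (hf : ∀ x, 0 ≤ f x) : 0 ≤ H.ψ f := by
  have hf' : ∀ x, 0 ≤ (H.p * f * H.p) x := by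
    intro x
    have h1 := star_left_conjugate_nonneg (hf x) (H.p x)
    rw [(H.proj x).isSelfAdjoint.star_eq] at h1
    exact h1
  obtain ⟨c, _, hc1, hc2⟩ := exists_sqrt _ hf'
  have hcp : c * H.p = c := by
    have h1 : c * (1 - H.p) = 0 := by
      ext1 x
      have h2 : star (c x * (1 - H.p x)) * (c x * (1 - H.p x)) = 0 := by
        have h3 : c x * c x = H.p x * f x * H.p x := congrArg (fun w => w x) hc2
        have h4 : star (c x) = c x := congrArg (fun w => w x) hc1
        have h5 : star (H.p x) = H.p x := (H.proj x).isSelfAdjoint.star_eq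
        have h6 : H.p x * H.p x = H.p x := (H.proj x).isIdempotentElem
        rw [star_mul, star_sub, star_one, h4, h5, mul_assoc, ← mul_assoc (c x) (c x), h3,
          mul_sub, mul_one, mul_assoc (H.p x * f x) (H.p x) (H.p x), h6, sub_self, mul_zero]
      exact CStarRing.star_mul_self_eq_zero_iff _ |>.mp h2
    have h2 : c - c * H.p = 0 := by
      rw [← h1]
      ext1 x
      simp only [ContinuousMap.sub_apply, ContinuousMap.mul_apply, mul_sub, mul_one]
    exact (sub_eq_zero.1 h2).symm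
  have h1 : H.ψ f = star (H.ψ c) * H.ψ c := by
    rw [← H.map_star', hc1, H.mul, hcp, hc2, H.comp]
  rw [h1]
  exact star_mul_self_nonneg _

theorem psi_mono (f g : C(H.X, Mt H.N)) (h : ∀ x, f x ≤ g x) : H.ψ f ≤ H.ψ g := by
  have h1 := H.psi_nonneg (g - f) fun x => by
    rw [ContinuousMap.sub_apply]
    exact sub_nonneg.2 (h x)
  rw [map_sub] at h1
  exact sub_nonneg.1 h1

theorem psi_le_one (f : C(H.X, Mt H.N)) (h : ∀ x, f x ≤ 1) : H.ψ f ≤ H.ψ 1 :=
  H.psi_mono f 1 h

omit [PartialOrder A] [StarOrderedRing A] in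
theorem isSelfAdjoint_psi (f : C(H.X, Mt H.N)) (hf : star f = f) : IsSelfAdjoint (H.ψ f) := by
  unfold IsSelfAdjoint
  rw [← H.map_star', hf]

end HCor

end RC
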