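import Pool.Agent.Helper82.AH.Basic
import Pool.Agent.Helper10.RC.All
import Pool.Agent.Helper82.AH.FR
import Pool.Agent.Helper5.AH.QM
import Pool.Agent.Helper24.AH.QT
import Pool.Agent.Helper94.AH.QI
import Pool.Agent.Helper9.AH.QA
import Pool.Agent.Helper12.AH.AS
import Pool.Agent.Helper7.AH.TB
import Pool.Agent.Helper83.AH.CR
import Pool.Agent.Helper35.AH.CU
import Pool.Agent.Helper35.AH.DR

/-!
# MP_b55b7c_an: AH algebras with dimension growth `o(n^2)`, all pieces together
-/

open scoped ENNReal NNReal InnerProductSpace ComplexOrder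
open Filter Topology

attribute [-instance] CStarMatrix.instAlgebra CStarMatrix.instModule CStarMatrix.instSMul
  CStarMatrix.instMulAction CStarMatrix.instDistribMulAction

noncomputable section
namespace RC
universe u

theorem tauMono_ah : TauMonoP.{u} := tauMonoP_h5 qBasicP qMono_all cuLeAdd_all

theorem qAdd_ah : QAddP.{u} := qAddP tauMono_ah (qI frameP tauMono_ah)

/-- The quasitraces are traces. -/
theorem slow_dom (A : Type u) [CStarAlgebra A] [PartialOrder A] [StarOrderedRing A]
    (h : SlowH A) (σ : QTrace A) : ∃ φ : TState A, ∀ x : A, 0 ≤ x →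
      σ.τ Unit (one1 x) ≤ 1 * (φ.φ x).re := by
  obtain ⟨φ, hφ⟩ := qToT A σ (qAdd_ah A h σ)
  exact ⟨φ, fun x hx => by rw [one_mul, hφ x hx]⟩

/-- AH algebras with dimension growth `o(n^2)` have approximate stable rank one. -/
theorem asr_ah : AsrSlowP.{u} := asrSlow (cornerRankP denseRankP) cutRankP tb7

/-- AH algebras with dimension growth `o(n^2)` have approximate stable rank one, and their
quasitraces are traces. -/
theorem slow_asr_dom (A : Type u) [CStarAlgebra A] [PartialOrder A] [StarOrderedRing A]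
    (h : SlowH A) : ASR A ∧ ∀ σ : QTrace A, ∃ φ : TState A, ∀ x : A, 0 ≤ x →
      σ.τ Unit (one1 x) ≤ 1 * (φ.φ x).re :=
  ⟨asr_ah A h, fun σ => slow_dom A h σ⟩

end RC
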