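import Pool.Agent.Helper29.AR.Props

/-!
# MP_b55b7c_an: AH algebras with dimension growth `o(n^2)`, definitions and statements of the packets
-/

open scoped ENNReal NNReal InnerProductSpace ComplexOrder
open Filter Topology

attribute [-instance] CStarMatrix.instAlgebra CStarMatrix.instModule CStarMatrix.instSMul
  CStarMatrix.instMulAction CStarMatrix.instDistribMulAction

noncomputable section
namespace RC
universe u

/-- The C*-algebra of the complex `N × N` matrices. -/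
def Mt (N : ℕ) : Type := CStarMatrix (Fin N) (Fin N) ℂ

instance (N : ℕ) : CStarAlgebra (Mt N) :=
  inferInstanceAs (CStarAlgebra (CStarMatrix (Fin N) (Fin N) ℂ))

instance (N : ℕ) : PartialOrder (Mt N) :=
  inferInstanceAs (PartialOrder (CStarMatrix (Fin N) (Fin N) ℂ))

instance (N : ℕ) : StarOrderedRing (Mt N) :=
  inferInstanceAs (StarOrderedRing (CStarMatrix (Fin N) (Fin N) ℂ))

/-- The underlying matrix. -/
def Mt.mat {N : ℕ} (m : Mt N) : Matrix (Fin N) (Fin N) ℂ := CStarMatrix.ofMatrix.symm m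

/-- The rank of a matrix. -/
def rkM {N : ℕ} (m : Mt N) : ℕ := m.mat.rank

/-- The (real part of the) trace of a matrix. -/
def trM {N : ℕ} (m : Mt N) : ℝ := m.mat.trace.re

/-- A homogeneous block of `A`: a compact set `X ⊆ ℝ^D`, a projection `p` in the algebra
`C(X, M_N)` of the continuous functions on `X` with values in the complex `N × N` matrices, and a
`*`-homomorphism from the corner `p C(X, M_N) p` to `A`, given by its composition `ψ` with the
compression `f ↦ p f p`. (`norm_le` holds automatically.) -/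
structure HCor (A : Type u) [CStarAlgebra A] where
  D : ℕ
  N : ℕ
  X : Set (Fin D → ℝ)
  cpt : IsCompact X
  p : C(X, Mt N)
  proj : ∀ x, IsStarProjection (p x)
  ψ : C(X, Mt N) →ₗ[ℂ] A
  comp : ∀ f, ψ (p * f * p) = ψ f
  mul : ∀ f g, ψ f * ψ g = ψ (f * p * g)
  map_star' : ∀ f, ψ (star f) = star (ψ f)
  norm_le : ∀ (f : C(X, Mt N)) (c : ℝ), 0 ≤ c → (∀ x, ‖f x‖ ≤ c) → ‖ψ f‖ ≤ c

/-- Dimension growth `o(n^2)`: every finite subset of `A` is approximately contained in a unital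
`*`-homomorphic image of a finite direct sum of homogeneous algebras `p C(X, M_N) p`, where `X` is a
compact subset of `ℝ^D` and `K (D + 1) ≤ (rank p(x))^2` for all `x`; here `K` is as large as we
wish. (Every compact metrizable space of dimension `d` is homeomorphic to a compact subset of
`ℝ^(2 d + 1)`.) -/
def SlowH (A : Type u) [CStarAlgebra A] : Prop :=
  ∀ (F : Finset A) (ε K : ℝ), 0 < ε → ∃ (n : ℕ) (H : Fin n → HCor A),
    (∀ l m, l ≠ m → ∀ f g, (H l).ψ f * (H m).ψ g = 0) ∧ ∑ l, (H l).ψ 1 = 1 ∧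
    (∀ l x, K * (((H l).D : ℝ) + 1) ≤ trM ((H l).p x) ^ 2) ∧
    ∀ a ∈ F, ∃ f : ∀ l, C((H l).X, Mt (H l).N), ‖a - ∑ l, (H l).ψ (f l)‖ ≤ ε

/-! ## Matrix valued functions -/

/-- DR. General position: a continuous function on a compact subset of `ℝ^D` with values in the
`N × N` matrices is close to one whose corank is less than `k` everywhere, if `D < 2 k^2`. -/
def DenseRankP : Prop := ∀ (D N k : ℕ) (X : Set (Fin D → ℝ)), IsCompact X →
  ∀ (Y : C(X, Mt N)) (δ : ℝ), 0 < δ → D < 2 * k ^ 2 →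
  ∃ T : C(X, Mt N), (∀ x, ‖T x - Y x‖ ≤ δ) ∧ ∀ x, N < rkM (T x) + k

/-- CR. The same in a corner. -/
def CornerRankP : Prop := ∀ (D N k : ℕ) (X : Set (Fin D → ℝ)), IsCompact X →
  ∀ (p f : C(X, Mt N)) (δ : ℝ), (∀ x, IsStarProjection (p x)) → p * f * p = f → 0 < δ →
  D < 2 * k ^ 2 →
  ∃ g : C(X, Mt N), p * g * p = g ∧ (∀ x, ‖g x - f x‖ ≤ δ) ∧ ∀ x, rkM (p x) < rkM (g x) + k

/-- CU. Left inverse up to an element of small rank. -/
def CutRankP : Prop := ∀ (D N k : ℕ) (X : Set (Fin D → ℝ)), IsCompact X →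
  ∀ (p g : C(X, Mt N)), (∀ x, IsStarProjection (p x)) → p * g * p = g →
  (∀ x, rkM (p x) < rkM (g x) + k) →
  ∃ a b L χ : C(X, Mt N), p * a * p = a ∧ p * b * p = b ∧ p * L * p = L ∧ p * χ * p = χ ∧
    a * g + b * L = p ∧ (∀ x, 0 ≤ L x) ∧ (∀ x, 0 ≤ χ x ∧ χ x ≤ 1 ∧ rkM (χ x) < k) ∧ χ * L = L

/-- FR. Local matrix units which diagonalize `f` at `x₀`. -/
def FrameP : Prop := ∀ (D N : ℕ) (X : Set (Fin D → ℝ)), IsCompact X →
  ∀ (p f : C(X, Mt N)), (∀ x, IsStarProjection (p x)) → p * f * p = f → (∀ x, 0 ≤ f x) →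
  ∀ x₀ : X, ∃ (m : ℕ) (e : Fin m → Fin m → C(X, Mt N)) (lam : Fin m → ℝ),
    (∀ i, 0 ≤ lam i) ∧ (∀ i j, p * e i j * p = e i j) ∧ f x₀ = ∑ i, lam i • e i i x₀ ∧
    ∃ U ∈ 𝓝 x₀, ∀ x ∈ U, trM (p x) = m ∧ ∑ i, e i i x = p x ∧
      ∀ i j, star (e i j x) = e j i x ∧ ∀ k l, e i j x * e k l x = if j = k then e i l x else 0

/-! ## Traces -/

/-- TB. The trace of an element of small rank. -/
def TrBdP : Prop := ∀ (A : Type u) [CStarAlgebra A] [PartialOrder A] [StarOrderedRing A]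
  (φ : TState A) (H : HCor A) (χ : C(H.X, Mt H.N)) (θ : ℝ), 0 ≤ θ → H.p * χ * H.p = χ →
  (∀ x, 0 ≤ χ x ∧ χ x ≤ 1) → (∀ x, (rkM (χ x) : ℝ) ≤ θ * trM (H.p x)) →
  (φ.φ (H.ψ χ)).re ≤ θ * (φ.φ (H.ψ 1)).re

/-- AS. AH algebras with dimension growth `o(n^2)` have approximate stable rank one. -/
def AsrSlowP : Prop := ∀ (A : Type u) [CStarAlgebra A] [PartialOrder A] [StarOrderedRing A],
  SlowH A → ASR A

/-! ## Quasitraces -/

/-- QM. Quasitraces are monotone. -/
def TauMonoP : Prop := ∀ (A : Type u) [CStarAlgebra A] [PartialOrder A] [StarOrderedRing A]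
  (σ : QTrace A) (ι : Type) [Fintype ι] [DecidableEq ι] (a b : CStarMatrix ι ι A), 0 ≤ a →
  a ≤ b → σ.τ ι a ≤ σ.τ ι b

/-- QI. A quasitrace on a homogeneous block depends on the pointwise trace only. -/
def QIdP : Prop := ∀ (A : Type u) [CStarAlgebra A] [PartialOrder A] [StarOrderedRing A]
  (σ : QTrace A) (H : HCor A) (f g : C(H.X, Mt H.N)), H.p * f * H.p = f → H.p * g * H.p = g →
  (∀ x, 0 ≤ f x) → (∀ x, 0 ≤ g x) → (∀ x, trM (f x) = trM (g x)) →
  σ.τ Unit (one1 (H.ψ f)) = σ.τ Unit (one1 (H.ψ g))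

/-- QA. Quasitraces on AH algebras are additive. -/
def QAddP : Prop := ∀ (A : Type u) [CStarAlgebra A] [PartialOrder A] [StarOrderedRing A],
  SlowH A → ∀ (σ : QTrace A) (a b : A), 0 ≤ a → 0 ≤ b →
  σ.τ Unit (one1 (a + b)) = σ.τ Unit (one1 a) + σ.τ Unit (one1 b)

/-- QT. An additive quasitrace is a trace. -/
def QToTP : Prop := ∀ (A : Type u) [CStarAlgebra A] [PartialOrder A] [StarOrderedRing A]
  (σ : QTrace A), (∀ a b : A, 0 ≤ a → 0 ≤ b →
    σ.τ Unit (one1 (a + b)) = σ.τ Unit (one1 a) + σ.τ Unit (one1 b)) →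
  ∃ φ : TState A, ∀ a : A, 0 ≤ a → σ.τ Unit (one1 a) = (φ.φ a).re

end RC
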